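import Mathlib

/-!
# Circulant automorphisms moving the involution `2h`

For every `h` that has an odd divisor `m > 1` the answer to the question is negative: with
`d = 4h / m` the set `S` of all `x ∈ ℤ/4h` that are not divisible by `d` and different from `2h`
is a counterexample, and its circulant graph is connected, not bipartite and twin-free.
-/

set_option autoImplicit false

open Pointwise

namespace Pool.Agent.Results.MP_250e3d_co.NotPowerOfTwo

/-- The circulant graph on `ℤ/n` with the connection set `T` (`x ∼ y` iff `x ≠ y` and one of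
`y - x`, `x - y` lies in `T`; for an inverse-closed `T` this is the condition `y - x ∈ T`). -/
def cay (n : ℕ) (T : Set (ZMod n)) : SimpleGraph (ZMod n) :=
  SimpleGraph.fromRel fun x y => y - x ∈ T

/-- The set `S* = (S \ {2h}) + 2h`. -/
def star (h : ℕ) (S : Set (ZMod (4 * h))) : Set (ZMod (4 * h)) :=
  (S \ {((2 * h : ℕ) : ZMod (4 * h))}) + {((2 * h : ℕ) : ZMod (4 * h))}

/-- The set `K_o = K \ 2K` of a subgroup `K`. -/
def odds {n : ℕ} (K : AddSubgroup (ZMod n)) : Set (ZMod n) :=
  (K : Set (ZMod n)) \ {x | ∃ k ∈ K, x = 2 • k}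

/-- The conclusion of the question: there is a subgroup `K` of order twice an odd number such that
`(S \ K_o) + ⟨h⟩ ⊆ S ∪ K_o`. -/
def Good (h : ℕ) (S : Set (ZMod (4 * h))) : Prop :=
  ∃ K : AddSubgroup (ZMod (4 * h)), (∃ q : ℕ, Odd q ∧ Nat.card K = 2 * q) ∧
    (S \ odds K) + (AddSubgroup.zmultiples ((h : ℕ) : ZMod (4 * h)) : Set (ZMod (4 * h))) ⊆
      S ∪ odds K

section

variable (m k : ℕ)

/-- `4k ∣ 4(mk)`. -/
theorem dvd_aux : 4 * k ∣ 4 * (m * k) := ⟨m, by ring⟩

/-- Reduction modulo `4k`. -/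
def red : ZMod (4 * (m * k)) →+* ZMod (4 * k) := ZMod.castHom (dvd_aux m k) (ZMod (4 * k))

/-- The counterexample. -/
def S : Set (ZMod (4 * (m * k))) := {x | red m k x ≠ 0 ∧ x ≠ ((2 * (m * k) : ℕ) : ZMod (4 * (m * k)))}

variable {m k}

theorem red_nat (a : ℕ) : red m k (a : ZMod (4 * (m * k))) = (a : ZMod (4 * k)) := map_natCast _ _

theorem two_h_neg : -((2 * (m * k) : ℕ) : ZMod (4 * (m * k))) = ((2 * (m * k) : ℕ) : ZMod (4 * (m * k))) := by
  rw [neg_eq_iff_add_eq_zero, ← Nat.cast_add, ZMod.natCast_eq_zero_iff]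
  exact ⟨1, by ring⟩

theorem red_two_h (hm : Odd m) : red m k ((2 * (m * k) : ℕ) : ZMod (4 * (m * k))) = ((2 * k : ℕ) : ZMod (4 * k)) := by
  rw [red_nat]
  obtain ⟨t, rfl⟩ := hm
  have : 2 * ((2 * t + 1) * k) = (4 * k) * t + 2 * k := by ring
  rw [this, Nat.cast_add, Nat.cast_mul, ZMod.natCast_self, zero_mul, zero_add]

theorem two_k_ne (hk : 0 < k) : ((2 * k : ℕ) : ZMod (4 * k)) ≠ 0 := by
  rw [Ne, ZMod.natCast_eq_zero_iff]
  intro h
  have := Nat.le_of_dvd (by omega) h
  omega

theorem nat_mem {a : ℕ} (h1 : ¬ 4 * k ∣ a) (h2 : a < 4 * (m * k)) (h3 : a ≠ 2 * (m * k)) :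
    (a : ZMod (4 * (m * k))) ∈ S m k := by
  refine ⟨?_, ?_⟩
  · rw [red_nat, Ne, ZMod.natCast_eq_zero_iff]; exact h1
  · intro h
    rw [ZMod.natCast_eq_natCast_iff', Nat.mod_eq_of_lt h2, Nat.mod_eq_of_lt (by omega)] at h
    exact h3 h

theorem neg_mem {x : ZMod (4 * (m * k))} (hx : x ∈ S m k) : -x ∈ S m k := by
  refine ⟨?_, ?_⟩
  · rw [map_neg, Ne, neg_eq_zero]; exact hx.1
  · intro h
    apply hx.2
    rw [← neg_neg x, h, two_h_neg]

theorem zero_not_mem : (0 : ZMod (4 * (m * k))) ∉ S m k := fun h => h.1 (map_zero _)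

theorem mem_star (hm : Odd m) {y : ZMod (4 * (m * k))} :
    y ∈ star (m * k) (S m k) ↔ y ≠ 0 ∧ red m k y ≠ ((2 * k : ℕ) : ZMod (4 * k)) := by
  unfold star
  rw [Set.mem_add]
  have e2 : ((2 * (m * k) : ℕ) : ZMod (4 * (m * k))) + ((2 * (m * k) : ℕ) : ZMod (4 * (m * k))) = 0 := by
    rw [← Nat.cast_add, ZMod.natCast_eq_zero_iff]
    exact ⟨1, by ring⟩
  have e3 : ((2 * k : ℕ) : ZMod (4 * k)) + ((2 * k : ℕ) : ZMod (4 * k)) = 0 := by
    rw [← Nat.cast_add, ZMod.natCast_eq_zero_iff]
    exact ⟨1, by ring⟩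
  constructor
  · rintro ⟨x, ⟨hx, hx2⟩, z, hz, rfl⟩
    rw [Set.mem_singleton_iff] at hz hx2
    subst hz
    refine ⟨?_, ?_⟩
    · intro h
      apply hx2
      rw [← two_h_neg]
      exact eq_neg_of_add_eq_zero_left h
    · rw [map_add, red_two_h hm]
      intro h
      apply hx.1
      simpa using h
  · rintro ⟨h1, h2⟩
    refine ⟨y + ((2 * (m * k) : ℕ) : ZMod (4 * (m * k))), ⟨⟨?_, ?_⟩, ?_⟩, _, rfl, ?_⟩
    · rw [map_add, red_two_h hm]
      intro h
      apply h2
      rw [eq_neg_of_add_eq_zero_left h]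
      exact neg_eq_of_add_eq_zero_left e3
    · intro h
      apply h1
      simpa using h
    · rw [Set.mem_singleton_iff]
      intro h
      apply h1
      simpa using h
    · rw [add_assoc, e2, add_zero]

theorem star_adj (hm : Odd m) {x y : ZMod (4 * (m * k))} :
    (cay (4 * (m * k)) (star (m * k) (S m k))).Adj x y ↔
      x ≠ y ∧ red m k (y - x) ≠ ((2 * k : ℕ) : ZMod (4 * k)) := by
  have e3 : -((2 * k : ℕ) : ZMod (4 * k)) = ((2 * k : ℕ) : ZMod (4 * k)) := by
    rw [neg_eq_iff_add_eq_zero, ← Nat.cast_add, ZMod.natCast_eq_zero_iff]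
    exact ⟨1, by ring⟩
  unfold cay
  rw [SimpleGraph.fromRel_adj, mem_star hm, mem_star hm]
  constructor
  · rintro ⟨h, h1 | h1⟩
    · exact ⟨h, h1.2⟩
    · refine ⟨h, fun h2 => h1.2 ?_⟩
      rw [← neg_sub, map_neg, h2, e3]
  · rintro ⟨h, h1⟩
    exact ⟨h, Or.inl ⟨sub_ne_zero.mpr h.symm, h1⟩⟩

theorem S_adj {x y : ZMod (4 * (m * k))} :
    (cay (4 * (m * k)) (S m k)).Adj x y ↔ y - x ∈ S m k := by
  unfold cay
  rw [SimpleGraph.fromRel_adj]
  constructor
  · rintro ⟨h, h1 | h1⟩
    · exact h1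
    · rw [← neg_sub]; exact neg_mem h1
  · intro h
    refine ⟨?_, Or.inl h⟩
    rintro rfl
    rw [sub_self] at h
    exact zero_not_mem h

end

/-- For every `h` with an odd divisor greater than `1` the answer to the question is negative, with
a set `S` whose circulant graph is connected, not bipartite and twin-free. -/
theorem result (h : ℕ) (h1 : 1 ≤ h) (h2 : ∃ m : ℕ, Odd m ∧ 1 < m ∧ m ∣ h) :
    ∃ S : Set (ZMod (4 * h)), (∀ x ∈ S, -x ∈ S) ∧ 0 ∉ S ∧
      (cay (4 * h) S).Connected ∧ ¬ (cay (4 * h) S).Colorable 2 ∧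
      (∀ x y, (cay (4 * h) S).neighborSet x = (cay (4 * h) S).neighborSet y → x = y) ∧
      (∃ σ : cay (4 * h) (star h S) ≃g cay (4 * h) (star h S),
        σ 0 = 0 ∧ σ ((2 * h : ℕ) : ZMod (4 * h)) ≠ ((2 * h : ℕ) : ZMod (4 * h))) ∧
      ¬ Good h S := by
  obtain ⟨m, hm, hm1, k, rfl⟩ := h2
  have hk : 0 < k := Nat.pos_of_ne_zero (by rintro rfl; simp at h1)
  have hm3 : 3 ≤ m := by
    obtain ⟨t, rfl⟩ := hm
    omega
  have hmk : 3 * k ≤ m * k := Nat.mul_le_mul_right k hm3
  have : NeZero (4 * (m * k)) := ⟨by omega⟩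
  have hone : ((1 : ℕ) : ZMod (4 * (m * k))) ∈ S m k :=
    nat_mem (fun h => by have := Nat.le_of_dvd one_pos h; omega) (by omega) (by omega)
  have htwo : ((2 : ℕ) : ZMod (4 * (m * k))) ∈ S m k :=
    nat_mem (fun h => by have := Nat.le_of_dvd two_pos h; omega) (by omega) (by omega)
  have hzero : ∀ a : ℕ, a < 4 * (m * k) → (a : ZMod (4 * (m * k))) = 0 → a = 0 := by
    intro a ha h
    rw [ZMod.natCast_eq_zero_iff] at h
    exact Nat.eq_zero_of_dvd_of_lt h ha
  refine ⟨S m k, fun x hx => neg_mem hx, zero_not_mem, ?_, ?_, ?_, ?_, ?_⟩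
  · -- connected
    have key : ∀ a : ℕ, (cay (4 * (m * k)) (S m k)).Reachable 0 (a : ZMod (4 * (m * k))) := by
      intro a
      induction a with
      | zero => rw [Nat.cast_zero]
      | succ a ih =>
        refine ih.trans (SimpleGraph.Adj.reachable ?_)
        rw [S_adj, Nat.cast_succ, add_sub_cancel_left, ← Nat.cast_one (R := ZMod (4 * (m * k)))]
        exact hone
    have key' : ∀ x : ZMod (4 * (m * k)), (cay (4 * (m * k)) (S m k)).Reachable 0 x := by
      intro x
      have := key x.val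
      rwa [ZMod.natCast_zmod_val] at this
    exact { preconnected := fun x y => (key' x).symm.trans (key' y), nonempty := ⟨0⟩ }
  · -- not bipartite
    rintro ⟨C⟩
    have a1 : (cay (4 * (m * k)) (S m k)).Adj 0 ((1 : ℕ) : ZMod (4 * (m * k))) := by
      rw [S_adj, sub_zero]; exact hone
    have a2 : (cay (4 * (m * k)) (S m k)).Adj 0 ((2 : ℕ) : ZMod (4 * (m * k))) := by
      rw [S_adj, sub_zero]; exact htwo
    have a3 : (cay (4 * (m * k)) (S m k)).Adj ((1 : ℕ) : ZMod (4 * (m * k)))
        ((2 : ℕ) : ZMod (4 * (m * k))) := by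
      rw [S_adj, ← Nat.cast_sub one_le_two]; exact hone
    have b1 := C.valid a1
    have b2 := C.valid a2
    have b3 := C.valid a3
    generalize C 0 = u at *
    generalize C ((1 : ℕ) : ZMod (4 * (m * k))) = v at *
    generalize C ((2 : ℕ) : ZMod (4 * (m * k))) = w at *
    omega
  · -- twin-free
    intro x y hxy
    have hN : ∀ z, z - x ∈ S m k ↔ z - y ∈ S m k := by
      intro z
      rw [← S_adj, ← S_adj, ← SimpleGraph.mem_neighborSet, ← SimpleGraph.mem_neighborSet, hxy]
    by_contra hne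
    have hD : ((4 * k : ℕ) : ZMod (4 * (m * k))) ≠ 0 := by
      intro h
      have := hzero _ (by omega) h
      omega
    have hrD : red m k ((4 * k : ℕ) : ZMod (4 * (m * k))) = 0 := by
      rw [red_nat, ZMod.natCast_self]
    have hr2 : red m k ((2 * (m * k) : ℕ) : ZMod (4 * (m * k))) ≠ 0 := by
      rw [red_two_h hm]; exact two_k_ne hk
    have notS : ∀ z : ZMod (4 * (m * k)), z ∉ S m k →
        red m k z = 0 ∨ z = ((2 * (m * k) : ℕ) : ZMod (4 * (m * k))) := by
      intro z hz
      by_contra hc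
      push Not at hc
      exact hz hc
    -- `z = x + 2h`
    have c1 : x + ((2 * (m * k) : ℕ) : ZMod (4 * (m * k))) - y ∉ S m k := by
      rw [← hN, add_sub_cancel_left]
      exact fun h => h.2 rfl
    have c2 : x + ((4 * k : ℕ) : ZMod (4 * (m * k))) - y ∉ S m k := by
      rw [← hN, add_sub_cancel_left]
      exact fun h => h.1 hrD
    have c3 : x - y ∉ S m k := by
      rw [← hN, sub_self]
      exact zero_not_mem
    have d1 : red m k (x - y) + red m k ((2 * (m * k) : ℕ) : ZMod (4 * (m * k))) = 0 := by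
      rcases notS _ c1 with h | h
      · rw [← map_add, ← h]
        congr 1
        ring
      · exfalso
        apply hne
        have : x - y = 0 := by
          have : x - y = (x + ((2 * (m * k) : ℕ) : ZMod (4 * (m * k))) - y) -
            ((2 * (m * k) : ℕ) : ZMod (4 * (m * k))) := by ring
          rw [this, h, sub_self]
        exact sub_eq_zero.mp this
    rcases notS _ c3 with h | h
    · rw [h, zero_add] at d1
      exact hr2 d1
    · rcases notS _ c2 with h' | h'
      · have : red m k (x - y) + red m k ((4 * k : ℕ) : ZMod (4 * (m * k))) = 0 := by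
          rw [← map_add, ← h']
          congr 1
          ring
        rw [hrD, add_zero, h] at this
        exact hr2 this
      · apply hD
        have : ((4 * k : ℕ) : ZMod (4 * (m * k))) =
          (x + ((4 * k : ℕ) : ZMod (4 * (m * k))) - y) - (x - y) := by ring
        rw [this, h', h, sub_self]
  · -- the automorphism
    have hs : red m k ((2 * k : ℕ) : ZMod (4 * (m * k))) =
        red m k ((2 * (m * k) : ℕ) : ZMod (4 * (m * k))) := by
      rw [red_two_h hm, red_nat]
    have hred : ∀ z : ZMod (4 * (m * k)), red m k (Equiv.swap ((2 * k : ℕ) : ZMod (4 * (m * k)))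
        ((2 * (m * k) : ℕ) : ZMod (4 * (m * k))) z) = red m k z := by
      intro z
      rw [Equiv.swap_apply_def]
      split_ifs with h3 h4
      · rw [h3, hs]
      · rw [h4, hs]
      · rfl
    refine ⟨⟨Equiv.swap ((2 * k : ℕ) : ZMod (4 * (m * k)))
      ((2 * (m * k) : ℕ) : ZMod (4 * (m * k))), ?_⟩, ?_, ?_⟩
    · intro a b
      rw [star_adj hm, star_adj hm, map_sub, map_sub, hred, hred,
        (Equiv.injective _).ne_iff]
    · change Equiv.swap ((2 * k : ℕ) : ZMod (4 * (m * k)))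
        ((2 * (m * k) : ℕ) : ZMod (4 * (m * k))) 0 = 0
      apply Equiv.swap_apply_of_ne_of_ne
      · intro h
        have := hzero _ (by omega) h.symm
        omega
      · intro h
        have := hzero _ (by omega) h.symm
        omega
    · change Equiv.swap ((2 * k : ℕ) : ZMod (4 * (m * k)))
        ((2 * (m * k) : ℕ) : ZMod (4 * (m * k))) _ ≠ _
      rw [Equiv.swap_apply_right]
      intro h
      rw [ZMod.natCast_eq_natCast_iff', Nat.mod_eq_of_lt (by omega),
        Nat.mod_eq_of_lt (by omega)] at h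
      omega
  · -- no subgroup
    rintro ⟨K, ⟨q, hq, hcard⟩, hK⟩
    have hh : (((m * k : ℕ)) : ZMod (4 * (m * k))) ∈ S m k := by
      refine nat_mem ?_ (by omega) (by omega)
      rintro ⟨c, hc⟩
      have h4 : m = 4 * c := by
        have : k * m = k * (4 * c) := by rw [mul_comm k m, hc]; ring
        exact Nat.eq_of_mul_eq_mul_left hk this
      obtain ⟨t, ht⟩ := hm
      omega
    have hno : ((m * k : ℕ) : ZMod (4 * (m * k))) ∉ odds K := by
      rintro ⟨hK1, -⟩
      have h5 : (2 * q) • ((m * k : ℕ) : ZMod (4 * (m * k))) = 0 := by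
        have := card_nsmul_eq_zero' (G := K) (x := ⟨_, hK1⟩)
        rw [hcard] at this
        have := congrArg (Subtype.val) this
        simpa using this
      rw [nsmul_eq_mul, ← Nat.cast_mul, ZMod.natCast_eq_zero_iff] at h5
      obtain ⟨c, hc⟩ := h5
      have h6 : 2 * q = 4 * c := by
        have h7 : (m * k) * (2 * q) = (m * k) * (4 * c) := by
          rw [mul_comm (m * k) (2 * q), hc]; ring
        exact Nat.eq_of_mul_eq_mul_left (by omega) h7
      obtain ⟨t, ht⟩ := hq
      omega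
    have h0 : (0 : ZMod (4 * (m * k))) ∈ S m k ∪ odds K := by
      apply hK
      rw [Set.mem_add]
      refine ⟨_, ⟨hh, hno⟩, -((m * k : ℕ) : ZMod (4 * (m * k))), ?_, ?_⟩
      · exact (AddSubgroup.zmultiples ((m * k : ℕ) : ZMod (4 * (m * k)))).neg_mem (AddSubgroup.mem_zmultiples _)
      · rw [add_neg_cancel]
    rcases h0 with h | h
    · exact zero_not_mem h
    · exact h.2 ⟨0, K.zero_mem, by simp⟩

end Pool.Agent.Results.MP_250e3d_co.NotPowerOfTwo
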